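import Pool.Agent.H58.FM.TC2

/-!
# Row CR2 of fas_modules (MP_6a7a6f_gt)
-/

set_option autoImplicit false

namespace Pool.Agent.H97.FA

open Pool.Agent.H59 Pool.Agent.H48.FR Pool.Agent.H58.FL Pool.Agent.H30.FA Pool.Agent.H58.FM

theorem pf_CR2 (hNEA : T_NEA) (hCHG : T_CHG) (hFRI : T_FRI) (hRPM : T_RPM) : T_CR2 := by
  obtain ⟨s0, hs0, h0⟩ := hNEA
  refine ⟨min s0 (1 / 4), lt_min hs0 (by norm_num), ?_⟩
  intro n f K hK hf hfr hS c hc hbc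
  obtain ⟨hr1, hr2, -, -, -⟩ := hRPM n
  have hs1 : min s0 (1 / 4) ≤ s0 := min_le_left _ _
  have hs2 : min s0 (1 / 4) ≤ 1 / 4 := min_le_right _ _
  have hcos : ∀ x y : CPn n, dist x y < min s0 (1 / 4) →
      1 - min s0 (1 / 4) ≤ ‖inner ℂ (rp x) (rp y)‖ ^ 2 := by
    intro x y hxy
    rw [hr2 x y]
    have h1 := Real.one_sub_sq_div_two_le_cos (x := dist x y)
    have h2 : 0 ≤ dist x y := dist_nonneg
    have h3 : (dist x y) ^ 2 ≤ min s0 (1 / 4) := by nlinarith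
    have h4 : 0 ≤ 1 - (dist x y) ^ 2 / 2 := by nlinarith
    nlinarith
  have hA : ∀ S ∈ K, ∀ x ∈ S, ∀ y ∈ S, 1 / 2 ≤ ‖inner ℂ (f x) (f y)‖ ^ 2 := by
    intro S hSK x hx y hy
    have := (hS S hSK x hx y hy).1
    linarith
  have hB : ∀ S ∈ K, ∀ x ∈ S, ∀ y ∈ S, 1 / 2 ≤ ‖inner ℂ (rp x) (rp y)‖ ^ 2 := by
    intro S hSK x hx y hy
    have := hcos x y (hS S hSK x hx y hy).2
    linarith
  obtain ⟨hclf, -⟩ := hFRI (CPn n) _ f K hf hA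
  obtain ⟨hclr, -⟩ := hFRI (CPn n) _ rp K hr1 hB
  obtain ⟨θ, hθ⟩ := h0 (CPn n) _ f rp K hf hr1 (by
    intro S hSK x hx y hy
    refine ⟨?_, ?_, hfr x⟩
    · have := (hS S hSK x hx y hy).1
      linarith
    · have := hcos x y (hS S hSK x hx y hy).2
      linarith)
  exact hCHG (CPn n) K hK (up f) (ff n) θ hclf hclr hθ n c hc hbc

end Pool.Agent.H97.FA
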